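import Pool.Agent.U913.SV.Idx

/-!
# The block of a Segre-Veronese format
-/

set_option autoImplicit false
set_option linter.unusedSectionVars false

namespace Pool.Agent.U913.SV

open Finset MvPolynomial Pool.Agent.TH144.NV Pool.Agent.R837.FQ

variable {r : ℕ} {n d : Fin r → ℕ}

/-- value of an additive function at a coordinate -/
theorem sum_ev_zpow {A : Type*} [CommGroup A] (μ : A) (a : (j : Fin r) → Fin (n j) → ℤ)
    (u : Idx n d) : μ ^ (∑ j, ((u j : Multiset (Fin (n j))).map (a j)).sum) =
      ev (fun j x => μ ^ a j x) u := by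
  unfold ev
  have h1 : ∀ s : Finset (Fin r), μ ^ (∑ j ∈ s, ((u j : Multiset (Fin (n j))).map (a j)).sum) =
      ∏ j ∈ s, ((u j : Multiset (Fin (n j))).map (fun x => μ ^ a j x)).prod := by
    intro s
    induction s using Finset.induction_on with
    | empty => simp
    | insert b s hb ih =>
      rw [Finset.sum_insert hb, Finset.prod_insert hb, zpow_add, ih]
      congr 1
      generalize (u b : Multiset (Fin (n b))) = m
      induction m using Multiset.induction_on with
      | empty => simp
      | cons x m ihm => rw [Multiset.map_cons, Multiset.map_cons, Multiset.sum_cons,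
          Multiset.prod_cons, zpow_add, ihm]
  exact h1 univ

theorem ev_div {A : Type*} [CommGroup A] (y z : (j : Fin r) → Fin (n j) → A) (u : Idx n d) :
    ev (fun j x => y j x * (z j x)⁻¹) u = ev y u * (ev z u)⁻¹ := by
  unfold ev
  rw [← Finset.prod_inv_distrib, ← Finset.prod_mul_distrib]
  refine Finset.prod_congr rfl fun j _ => ?_
  generalize (u j : Multiset (Fin (n j))) = m
  induction m using Multiset.induction_on with
  | empty => simp
  | cons x m ihm =>
    rw [Multiset.map_cons, Multiset.map_cons, Multiset.map_cons, Multiset.prod_cons,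
      Multiset.prod_cons, Multiset.prod_cons, ihm, mul_inv]
    exact mul_mul_mul_comm _ _ _ _

theorem ev_apply {G : Type*} [Group G] {A : Type*} [CommGroup A]
    (ψ : (j : Fin r) → Fin (n j) → G →* A) (u : Idx n d) (γ : G) :
    (∏ j, ((u j : Multiset (Fin (n j))).map (ψ j)).prod) γ = ev (fun j x => ψ j x γ) u := by
  unfold ev
  rw [MonoidHom.finsetProd_apply]
  refine Finset.prod_congr rfl fun j _ => ?_
  generalize (u j : Multiset (Fin (n j))) = m
  induction m using Multiset.induction_on with
  | empty => simp
  | cons x m ihm =>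
    rw [Multiset.map_cons, Multiset.map_cons, Multiset.prod_cons, Multiset.prod_cons, ← ihm]
    rfl

open Classical in
/-- the block of a Segre-Veronese format -/
theorem exists_bd_sv {k : Type} [Field k] [CharZero k] {G : Type} [Group G] {N : ℕ}
    {w : Fin N → ℕ} {α : Fin N → G →* kˣ} (j0 : Fin r) (c : ℕ) (hc : 0 < c)
    (hd : ∀ j, 0 < d j) (hn : ∀ j, n j = c * d j)
    (a : (j : Fin r) → Fin (n j) → ℤ) (t : ℤ) (ψ : (j : Fin r) → Fin (n j) → G →* kˣ)
    (ω : G →* kˣ) (M : Idx n d → MvPolynomial (Fin N) k) (dg : Idx n d → ℕ)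
    (hdg : ∀ u, (dg u : ℤ) = t + ∑ j, ((u j : Multiset (Fin (n j))).map (a j)).sum)
    (pos : ∀ u, 0 < dg u) (hom : ∀ u, IsWeightedHomogeneous w (M u) (dg u))
    (semi : ∀ (γ : G) (u : Idx n d), act (fun i => (α i γ : k)) (M u) =
      C (((ω * ∏ j, ((u j : Multiset (Fin (n j))).map (ψ j)).prod) γ : kˣ) : k) * M u) :
    Nonempty (BD k G N w α (2 * (∑ u, (dg u : ℤ) - (c * t + ∑ j, ∑ x, a j x))) fun p =>
      ∀ u v u' v' : Idx n d, (∀ j, (u j : Multiset (Fin (n j))) + v j = u' j + v' j) →
        eval p (M u) * eval p (M v) = eval p (M u') * eval p (M v')) := by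
  have hnpos : ∀ j, 0 < n j := fun j => by rw [hn j]; exact Nat.mul_pos hc (hd j)
  set Q : ℕ := ∏ j, n j with hQ
  have hQpos : 0 < Q := Finset.prod_pos fun j _ => hnpos j
  have hcQ : c ≤ Q := by
    have h1 : n j0 ≤ Q := Nat.le_of_dvd hQpos (Finset.dvd_prod_of_mem n (mem_univ j0))
    have h2 : c ≤ n j0 := by
      rw [hn j0]
      exact Nat.le_mul_of_pos_right c (hd j0)
    exact h2.trans h1
  let mu : Idx n d → ℕ := fun u => (univ.filter fun i : (j : Fin r) → Fin (n j) => pure i = u).card
  have hmu1 : ∀ u, mu u ≤ 1 := by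
    intro u
    apply Finset.card_le_one.2
    intro i hi i' hi'
    exact pure_injective hd (((Finset.mem_filter.1 hi).2).trans ((Finset.mem_filter.1 hi').2).symm)
  have hcmu : ∀ u, c * mu u ≤ Q := fun u =>
    (Nat.mul_le_mul_left c (hmu1 u)).trans (by rw [mul_one]; exact hcQ)
  have hmusum : ∀ (B : Type) [AddCommMonoid B] (f : Idx n d → B),
      ∑ u, mu u • f u = ∑ i, f (pure i) := by
    intro B _ f
    rw [← Finset.sum_fiberwise (s := univ) (g := fun i : (j : Fin r) → Fin (n j) => pure (d := d) i)
      (f := fun i => f (pure i))]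
    refine Finset.sum_congr rfl fun u _ => ?_
    have h1 : ∀ i ∈ univ.filter (fun i : (j : Fin r) → Fin (n j) => pure (d := d) i = u),
        f (pure i) = f u := fun i hi => by rw [(Finset.mem_filter.1 hi).2]
    rw [Finset.sum_congr rfl h1, Finset.sum_const]
  have hdgpure : ∀ i : (j : Fin r) → Fin (n j),
      (dg (pure i) : ℤ) = t + ∑ j, (d j : ℤ) * a j (i j) := by
    intro i
    rw [hdg]
    congr 1
    refine Finset.sum_congr rfl fun j _ => ?_
    rw [pure_coe, Multiset.map_replicate, Multiset.sum_replicate, nsmul_eq_mul]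
  have hsumpure : (c : ℤ) * ∑ i : (j : Fin r) → Fin (n j), (dg (pure i) : ℤ) =
      Q * (c * t + ∑ j, ∑ x, a j x) := by
    have hcardpi : ((univ : Finset ((j : Fin r) → Fin (n j))).card : ℤ) = Q := by
      rw [Finset.card_univ, Fintype.card_pi]
      simp [hQ]
    have h1 : ∀ j, (c : ℤ) * ∑ i : (j : Fin r) → Fin (n j), (d j : ℤ) * a j (i j) =
        Q * ∑ x, a j x := by
      intro j
      have h2 := sum_update (n := n) j (fun i => a j (i j))
      simp only [Function.update_self, Finset.sum_const, nsmul_eq_mul] at h2
      have hnj : ((n j : ℕ) : ℤ) = c * d j := by exact_mod_cast hn j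
      rw [hcardpi, hnj] at h2
      rw [← Finset.mul_sum, ← mul_assoc]
      exact h2.symm
    rw [Finset.sum_congr rfl fun i _ => hdgpure i, Finset.sum_add_distrib, Finset.sum_const,
      nsmul_eq_mul, hcardpi, mul_add, Finset.sum_comm, Finset.mul_sum,
      Finset.sum_congr rfl fun j _ => h1 j, ← Finset.mul_sum]
    ring
  refine ⟨{
    K := Idx n d
    ftK := inferInstance
    J := {x : Idx n d × Idx n d × Idx n d × Idx n d //
      ∀ j, (x.1 j : Multiset (Fin (n j))) + x.2.1 j = x.2.2.1 j + x.2.2.2 j}
    g := svEq k n d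
    M := M
    dg := dg
    dg_pos := pos
    hom := hom
    hg := ?_
    χ := fun u => ω * ∏ j, ((u j : Multiset (Fin (n j))).map (ψ j)).prod
    semi := semi
    rank := ?_
    P := Idx n d
    ftP := inferInstance
    c := fun u => Q - c * mu u
    d := dg
    hd := pos
    X := fun u => ω * ∏ j, ((u j : Multiset (Fin (n j))).map (ψ j)).prod
    q := Q
    hq := hQpos
    htop := ?_
    pat := ?_ }⟩
  · rintro ⟨⟨u, v, u', v'⟩, h⟩
    refine ⟨dg u + dg v, ?_⟩
    unfold svEq
    refine IsWeightedHomogeneous.sub ((isWeightedHomogeneous_X k _ _).mul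
      (isWeightedHomogeneous_X k _ _)) ?_
    have h1 : dg u + dg v = dg u' + dg v' := by
      have h2 : (dg u : ℤ) + dg v = dg u' + dg v' := by
        rw [hdg u, hdg v, hdg u', hdg v']
        have h3 : (∑ j, ((u j : Multiset (Fin (n j))).map (a j)).sum) +
            (∑ j, ((v j : Multiset (Fin (n j))).map (a j)).sum) =
            (∑ j, ((u' j : Multiset (Fin (n j))).map (a j)).sum) +
            ∑ j, ((v' j : Multiset (Fin (n j))).map (a j)).sum := by
          rw [← Finset.sum_add_distrib, ← Finset.sum_add_distrib]
          refine Finset.sum_congr rfl fun j _ => ?_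
          rw [← Multiset.sum_add, ← Multiset.sum_add, ← Multiset.map_add, ← Multiset.map_add]
          exact congrArg (fun m => (Multiset.map (a j) m).sum) (h j)
        linarith
      exact_mod_cast h2
    rw [h1]
    exact (isWeightedHomogeneous_X k _ _).mul (isWeightedHomogeneous_X k _ _)
  · intro p hp u v u' v' h
    have h1 := hp ⟨(u, v, u', v'), h⟩
    simp only [svEq, map_sub, map_mul, eval_X] at h1
    exact sub_eq_zero.1 h1
  · have h1 : ∀ u : Idx n d, ((Q - c * mu u : ℕ) : ℤ) * dg u =
        Q * dg u - c * (mu u • (dg u : ℤ)) := by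
      intro u
      rw [Nat.cast_sub (hcmu u), nsmul_eq_mul]
      push_cast
      ring
    rw [Finset.sum_congr rfl fun u _ => h1 u, Finset.sum_sub_distrib, ← Finset.mul_sum,
      ← Finset.mul_sum, hmusum ℤ (fun u => (dg u : ℤ)), hsumpure]
    ring
  · intro γ μ
    set lam : (j : Fin r) → Fin (n j) → kˣ := fun j x => ψ j x γ * (μ ^ a j x)⁻¹ with hlam
    set Ω : kˣ := ω γ * (μ ^ t)⁻¹ with hΩ
    have hlive : ∀ u : Idx n d,
        ((ω * ∏ j, ((u j : Multiset (Fin (n j))).map (ψ j)).prod) γ = μ ^ dg u ↔
          Ω * ev lam u = 1) := by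
      intro u
      have h1 : μ ^ dg u = μ ^ t * ev (fun j x => μ ^ a j x) u := by
        rw [← zpow_natCast, hdg u, zpow_add, sum_ev_zpow]
      have h2 : ev lam u = ev (fun j x => ψ j x γ) u * (ev (fun j x => μ ^ a j x) u)⁻¹ :=
        ev_div (fun j x => ψ j x γ) (fun j x => μ ^ a j x) u
      rw [MonoidHom.mul_apply, ev_apply, h1, h2, hΩ]
      generalize ω γ = A1
      generalize ev (fun j x => ψ j x γ) u = A2
      generalize μ ^ t = A3
      generalize ev (fun j x => μ ^ a j x) u = A4
      rw [show A1 * A3⁻¹ * (A2 * A4⁻¹) = (A1 * A2) * (A3 * A4)⁻¹ by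
        rw [mul_inv]; exact mul_mul_mul_comm _ _ _ _, mul_inv_eq_one]
    set S : Finset ((j : Fin r) → Fin (n j)) :=
      univ.filter fun i => Ω * ∏ j, lam j (i j) ^ d j = 1 with hS
    have hSmem : ∀ i, i ∈ S ↔ Ω * ∏ j, lam j (i j) ^ d j = 1 := by
      intro i
      simp [hS]
    -- the count of the pure coordinates
    have hcount : ∀ A : Finset (Idx n d),
        (∀ u, u ∈ A ↔ (ω * ∏ j, ((u j : Multiset (Fin (n j))).map (ψ j)).prod) γ = μ ^ dg u) →
        Q * A.card ≤ ∑ u ∈ A, (Q - c * mu u) + c * S.card := by
      intro A hA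
      have h1 : ∑ u ∈ A, mu u = S.card := by
        have h2 : ∀ u ∈ A, mu u = (S.filter fun i => pure i = u).card := by
          intro u hu
          show (univ.filter fun i : (j : Fin r) → Fin (n j) => pure i = u).card = _
          congr 1
          ext i
          simp only [Finset.mem_filter, mem_univ, true_and]
          constructor
          · intro h
            refine ⟨(hSmem i).2 ?_, h⟩
            rw [← ev_pure lam i]
            rw [h]
            exact (hlive u).1 ((hA u).1 hu)
          · exact fun h => h.2
        rw [Finset.sum_congr rfl h2]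
        symm
        apply Finset.card_eq_sum_card_fiberwise
        intro i hi
        rw [Finset.mem_coe] at hi ⊢
        rw [hA, hlive, ev_pure]
        exact (hSmem i).1 hi
      rw [← h1, Finset.mul_sum, ← Finset.sum_add_distrib, mul_comm Q, ← smul_eq_mul,
        ← Finset.sum_const]
      refine Finset.sum_le_sum fun u _ => ?_
      have := hcmu u
      omega
    by_cases hSne : S.Nonempty
    · obtain ⟨i, hiS, hi⟩ := exists_nb j0 (hd j0) c (hn j0) lam Ω S hSmem hSne
      set Xs : Finset (Fin (n j0)) := univ.filter fun x => lam j0 x = lam j0 (i j0) with hXs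
      refine ⟨Xs.image (nb j0 (hd j0) i), ?_, ?_⟩
      · refine sv_ext k _ lam j0 (hd j0) i ?_ _ ?_
        · intro u hu
          rw [hlive]
          have h1 : ev lam u = ev lam (pure (d := d) i) := by
            rw [ev_pure]
            unfold ev
            refine Finset.prod_congr rfl fun j _ => ?_
            have h2 : ((u j : Multiset (Fin (n j))).map (lam j)) =
                (u j : Multiset (Fin (n j))).map fun _ => lam j (i j) :=
              Multiset.map_congr rfl fun x hx => hu j x hx
            rw [h2, Multiset.map_const', Multiset.prod_replicate]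
            congr 1
            exact (u j).2
          rw [h1, ev_pure]
          exact (hSmem i).1 hiS
        · intro u
          rw [Finset.mem_image]
          constructor
          · rintro ⟨x, hx, rfl⟩
            exact ⟨x, (Finset.mem_filter.1 hx).2, rfl⟩
          · rintro ⟨x, hx, rfl⟩
            exact ⟨x, Finset.mem_filter.2 ⟨mem_univ _, hx⟩, rfl⟩
      · intro A hA E hE
        have hEA : E = A := by
          ext u
          rw [hE u, hA u]
        rw [hEA]
        have hcard : (Xs.image (nb (d := d) j0 (hd j0) i)).card = Xs.card :=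
          Finset.card_image_of_injective _ (nb_injective j0 (hd j0) i)
        have hsub : Xs.image (nb (d := d) j0 (hd j0) i) ⊆ A := by
          intro u hu
          obtain ⟨x, hx, rfl⟩ := Finset.mem_image.1 hu
          rw [hA, hlive]
          have h1 : ev lam (nb (d := d) j0 (hd j0) i x) = ev lam (pure (d := d) i) := by
            unfold ev
            refine Finset.prod_congr rfl fun j _ => ?_
            by_cases hj : j = j0
            · subst hj
              rw [nb_self, pure_coe, Multiset.map_cons, Multiset.prod_cons,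
                (Finset.mem_filter.1 hx).2, ← Multiset.prod_cons, ← Multiset.map_cons,
                ← Multiset.replicate_succ]
              congr 3
              have := hd j
              omega
            · rw [nb_of_ne j0 (hd j0) i x j hj]
          rw [h1, ev_pure]
          exact (hSmem i).1 hiS
        refine ⟨Finset.card_le_card hsub, ?_⟩
        rw [hcard]
        have h1 := hcount A hA
        have h2 : c * S.card ≤ Q * Xs.card := hi
        rw [Nat.mul_sub]
        omega
    · rw [Finset.not_nonempty_iff_eq_empty] at hSne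
      refine ⟨∅, ?_, ?_⟩
      · intro L _ _ u _
        refine ⟨fun _ => 0, fun x hx => absurd hx (Finset.notMem_empty x), fun _ _ => rfl, ?_⟩
        rintro ⟨⟨a, b, a', b'⟩, h⟩
        simp [svEq]
      · intro A hA E hE
        have hEA : E = A := by
          ext u
          rw [hE u, hA u]
        rw [hEA]
        refine ⟨by simp, ?_⟩
        have h1 := hcount A hA
        rw [hSne] at h1
        simpa using h1

end Pool.Agent.U913.SV
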