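import Pool.Agent.U913.SV.Comb
import Pool.Agent.N830.PS.Data

/-!
# The block of a symmetric matrix of any size and of any bound of the rank
-/

set_option autoImplicit false
set_option linter.unusedSectionVars false

namespace Pool.Agent.U913.SV

open Finset MvPolynomial Pool.Agent.R837.FE Pool.Agent.N830.PS
open Pool.Agent.TH144.NV (act)

theorem two_of_units {k : Type} [Field k] {V : Type} (ok : V → V → Prop) (hok : ∀ a b, ok a b)
    (y : V → kˣ) (z : kˣ) : Two (Rel ok y z) := by
  intro a b c ha hb hc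
  have key : ∀ a b : V, y a * y a * z = 1 → y b * y b * z = 1 → y a = y b ∨ y a = -y b := by
    intro a b h1 h2
    have h3 : y a * y a = y b * y b := mul_right_cancel (h1.trans h2.symm)
    have h4 : ((y a : k)) * y a = y b * y b := by
      have := congrArg (fun u : kˣ => (u : k)) h3
      simpa using this
    rcases mul_self_eq_mul_self_iff.1 h4 with h | h
    · left; exact Units.ext h
    · right; apply Units.ext; rw [Units.val_neg]; exact h
  rcases key a b ha.2 hb.2 with h | h
  · left
    refine ⟨hok _ _, ?_⟩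
    rw [← h]; exact ha.2
  · rcases key b c hb.2 hc.2 with h' | h'
    · right; left
      refine ⟨hok _ _, ?_⟩
      rw [← h']; exact hb.2
    · right; right
      refine ⟨hok _ _, ?_⟩
      have h5 : y a = y c := by rw [h, h', neg_neg]
      rw [← h5]; exact ha.2

section
variable {k : Type} [Field k] {G : Type} [Group G] {N : ℕ} {w : Fin N → ℕ} {α : Fin N → G →* kˣ}

open Classical in
/-- the block -/
theorem exists_bd_symm [CharZero k] {m r : ℕ} (hr : 1 ≤ r) (hrm : r < m)
    (M : Matrix (Fin m) (Fin m) (MvPolynomial (Fin N) k)) (hM : ∀ a b, M b a = M a b)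
    (e : Fin m → ℤ) (t : ℤ) (ψ : Fin m → G →* kˣ) (ω : G →* kˣ)
    (hpos' : ∀ a b, 0 < e a + e b + t)
    (hhom : ∀ a b, ∀ d : ℕ, (d : ℤ) = e a + e b + t → IsWeightedHomogeneous w (M a b) d)
    (hsemi : ∀ a b, ∀ g : G, act (fun i => (α i g : k)) (M a b) =
      C ((ψ a g * ψ b g * ω g : kˣ) : k) * M a b) :
    Nonempty (Pool.Agent.R837.FQ.BD k G N w α (((m : ℤ) + 1 - r) * (2 * ∑ a, e a + m * t))
      (fun p => (M.map (eval p)).rank ≤ r)) := by
  set ok : Fin m → Fin m → Prop := fun _ _ => True with hokdef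
  have hok : ∀ a b, ok a b → ok b a := fun _ _ _ => trivial
  have hok3 : ∀ a b c d, ok a b → ok b c → ok c d → ok a d := fun _ _ _ _ _ _ _ => trivial
  have hpos : ∀ x : K true ok, 0 < e x.1.1 + e x.1.2 + t := fun x => hpos' _ _
  obtain ⟨δ, hδ⟩ : ∃ δ : ℕ, m + 1 = r + δ := ⟨m + 1 - r, by omega⟩
  have hδZ : ((m : ℤ) + 1 - r) = δ := by
    have : ((m : ℤ) + 1) = r + δ := by exact_mod_cast hδ
    linarith
  set Rg : G → kˣ → Fin m → Fin m → Prop := fun g μ =>
    Rel ok (fun a => rc μ (ψ a g) (e a)) (rc μ (ω g) t) with hRg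
  have hR : ∀ g μ a b, Rg g μ a b → Rg g μ b a := fun g μ a b h => Rel.symm hok h
  have hR3 : ∀ g μ a b c d, Rg g μ a b → Rg g μ b c → Rg g μ c d → Rg g μ a d :=
    fun g μ a b c d h1 h2 h3 => Rel.three hok3 h1 h2 h3
  have hRc : ∀ g μ a b, rc μ (ψ a g) (e a) * rc μ (ψ b g) (e b) * rc μ (ω g) t =
      rc μ (ψ a g * ψ b g * ω g) (e a + e b + t) := by
    intro g μ a b
    rw [rc_mul_rc, rc_mul_rc]
  have hcomb := fun (g : G) (μ : kˣ) => comb (hR g μ) (hR3 g μ)
    (two_of_units ok (fun _ _ => trivial) _ _) r (univ : Finset (Fin m)) hr (by simpa using hrm)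
  choose B _ hB1 hB2 hB3 using hcomb
  have hnat : ∀ x : K true ok, ((e x.1.1 + e x.1.2 + t).toNat : ℤ) = e x.1.1 + e x.1.2 + t :=
    fun x => Int.toNat_of_nonneg (hpos x).le
  have hlive : ∀ g μ (x : K true ok),
      (ψ x.1.1 g * ψ x.1.2 g * ω g = μ ^ (e x.1.1 + e x.1.2 + t).toNat ↔
        Rg g μ x.1.1 x.1.2) := by
    intro g μ x
    rw [← rc_eq_one μ _ _ _ (hnat x), ← hRc]
    exact ⟨fun h => ⟨x.2.2, h⟩, fun h => h.2⟩
  refine ⟨{
    K := K true ok
    ftK := inferInstance
    J := (Fin (r + 1) → Fin m) × (Fin (r + 1) → Fin m)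
    g := fun j => ((mat true ok fun x => (X x : MvPolynomial (K true ok) k)).submatrix j.1 j.2).det
    M := fun x => M x.1.1 x.1.2
    dg := fun x => (e x.1.1 + e x.1.2 + t).toNat
    dg_pos := fun x => by
      have := hpos x
      omega
    hom := fun x => hhom _ _ _ (hnat x)
    hg := ?_
    χ := fun x => ψ x.1.1 * ψ x.1.2 * ω
    semi := fun γ x => hsemi _ _ γ
    rank := ?_
    P := K true ok
    ftP := inferInstance
    c := fun x => if x.1.1 = x.1.2 then δ else 2 * δ
    d := fun x => (e x.1.1 + e x.1.2 + t).toNat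
    hd := fun x => by
      have := hpos x
      omega
    X := fun x => ψ x.1.1 * ψ x.1.2 * ω
    q := 2 * m
    hq := by omega
    htop := ?_
    pat := ?_ }⟩
  · rintro ⟨rr, c⟩
    refine det_hom _ _ (fun i => e (rr i)) (fun j => e (c j) + t) ?_
    intro i j
    simp only [Matrix.submatrix_apply, mat]
    split_ifs with h1 h2
    · right
      refine ⟨_, ?_, isWeightedHomogeneous_X k _ _⟩
      rw [hnat]
      ring
    · right
      refine ⟨(e (c j) + e (rr i) + t).toNat, ?_, ?_⟩
      · have := hnat ⟨_, h2⟩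
        simp only at this
        rw [this]
        ring
      · have h3 := isWeightedHomogeneous_X k
          (fun x : K true ok => (e x.1.1 + e x.1.2 + t).toNat) ⟨_, h2⟩
        unfold sg
        split_ifs
        · rw [one_mul]; exact h3
        · rw [neg_one_mul]; exact h3.neg
    · left; rfl
  · intro p hp
    rw [rank_le_iff_minors]
    intro f g
    have hmat : mat true ok (fun x => eval p (M x.1.1 x.1.2)) = M.map (eval p) := by
      have h1 := mat_of true ok hok (M.map (eval p)) (by
        intro a b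
        simp only [Matrix.map_apply]
        rw [hM a b]
        simp [sg]) (by
        intro hs a
        exact absurd hs (by simp)) (by
        intro a b hab
        exact absurd trivial hab)
      exact h1
    have h1 := hp (f, g)
    simp only at h1
    rw [RingHom.map_det] at h1
    rw [← h1, ← hmat]
    congr 1
    have h2 := mat_map true ok (fun κ => (X κ : MvPolynomial (K true ok) k))
      (eval (fun x : K true ok => eval p (M x.1.1 x.1.2)))
    simp only [eval_X] at h2
    rw [← h2]
    rfl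
  · -- the sum
    have h1 := two_sum_true (V := Fin m)
      (fun a b => (if a = b then (δ : ℤ) else 2 * δ) * (e a + e b + t)) (fun a b => by
        by_cases h : a = b
        · subst h; rfl
        · rw [if_neg h, if_neg (fun h' => h h'.symm)]; ring)
    have h2 : ∑ x : K true ok, (((if x.1.1 = x.1.2 then δ else 2 * δ : ℕ) : ℤ)) *
        ((e x.1.1 + e x.1.2 + t).toNat : ℤ) =
        ∑ x : K true ok, (if x.1.1 = x.1.2 then (δ : ℤ) else 2 * δ) *
          (e x.1.1 + e x.1.2 + t) := by
      refine Finset.sum_congr rfl fun x _ => ?_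
      rw [hnat]
      split_ifs <;> push_cast <;> rfl
    rw [h2]
    have h3 : (2 : ℤ) * ∑ x : K true ok, (if x.1.1 = x.1.2 then (δ : ℤ) else 2 * δ) *
        (e x.1.1 + e x.1.2 + t) =
        ∑ a, ∑ b, (if a = b then (δ : ℤ) else 2 * δ) * (e a + e b + t) +
          ∑ a, (if a = a then (δ : ℤ) else 2 * δ) * (e a + e a + t) := h1
    rw [h3, hδZ]
    have h4 : ∀ a : Fin m, ∑ b, (if a = b then (δ : ℤ) else 2 * δ) * (e a + e b + t) =
        2 * δ * ∑ b, (e a + e b + t) - δ * (e a + e a + t) := by
      intro a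
      have h5 : ∀ b : Fin m, (if a = b then (δ : ℤ) else 2 * δ) * (e a + e b + t) =
          2 * δ * (e a + e b + t) - (if a = b then (δ : ℤ) * (e a + e b + t) else 0) := by
        intro b
        split_ifs <;> ring
      rw [Finset.sum_congr rfl fun b _ => h5 b, Finset.sum_sub_distrib, ← Finset.mul_sum,
        Finset.sum_ite_eq univ a, if_pos (mem_univ a)]
    rw [Finset.sum_congr rfl fun a _ => h4 a]
    simp only [if_true, Finset.sum_sub_distrib, ← Finset.mul_sum, Finset.sum_add_distrib,
      Finset.sum_const, Finset.card_univ, Fintype.card_fin, nsmul_eq_mul]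
    push_cast
    ring
  · intro g μ
    set Pt : Finset (K true ok) := univ.filter fun x =>
      Rg g μ x.1.1 x.1.2 ∧ (x.1.1 ∈ B g μ ∨ x.1.2 ∈ B g μ) with hPt
    refine ⟨Pt, ?_, ?_⟩
    · exact ext_of true ok (Rg g μ) (fun a b h => h.1) (hR g μ) (hR3 g μ) (B g μ) (hB1 g μ)
        r (hB2 g μ) _ (fun x => hlive g μ x) Pt (fun x => by simp [hPt])
    intro A hA E hE
    have hEA : E = A := by
      ext x
      rw [hE x, hA x]
    rw [hEA]
    have hA' : A = univ.filter fun x : K true ok => Rg g μ x.1.1 x.1.2 := by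
      ext x
      rw [mem_filter, ← hlive g μ x]
      constructor
      · exact fun h => ⟨mem_univ _, (hA x).1 h⟩
      · exact fun h => (hA x).2 h.2
    have hsub : Pt ⊆ A := by
      intro x hx
      rw [hA', mem_filter]
      exact ⟨mem_univ _, (mem_filter.1 hx).2.1⟩
    refine ⟨Finset.card_le_card hsub, ?_⟩
    -- edges outside `B`
    have h1 : ((A.card - Pt.card : ℕ) : ℤ) = ∑ x : K true ok,
        (if Rg g μ x.1.1 x.1.2 ∧ x.1.1 ∉ B g μ ∧ x.1.2 ∉ B g μ then (1 : ℤ) else 0) := by
      rw [← Finset.card_sdiff_of_subset hsub, Finset.sum_boole]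
      congr 2
      ext x
      rw [mem_sdiff, hA', hPt]
      simp only [mem_filter, mem_univ, true_and]
      tauto
    have h2 := two_sum_true (V := Fin m)
      (fun a b => if Rg g μ a b ∧ a ∉ B g μ ∧ b ∉ B g μ then (1 : ℤ) else 0) (fun a b => by
        have h3 : (Rg g μ a b ∧ a ∉ B g μ ∧ b ∉ B g μ) ↔
            (Rg g μ b a ∧ b ∉ B g μ ∧ a ∉ B g μ) := by
          constructor
          · rintro ⟨h1, h2, h3⟩; exact ⟨hR g μ _ _ h1, h3, h2⟩
          · rintro ⟨h1, h2, h3⟩; exact ⟨hR g μ _ _ h1, h3, h2⟩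
        simp only [h3])
    have h3 : ∑ a, ∑ b, (if Rg g μ a b ∧ a ∉ B g μ ∧ b ∉ B g μ then (1 : ℤ) else 0) =
        ee (Rg g μ) (univ \ B g μ) := by
      unfold ee ind
      have e1 : ∀ f : Fin m → ℤ, ∑ a ∈ univ \ B g μ, f a = ∑ a, if a ∉ B g μ then f a else 0 := by
        intro f
        rw [← Finset.sum_filter]
        congr 1
        ext a
        simp
      rw [e1]
      refine Finset.sum_congr rfl fun a _ => ?_
      rw [e1]
      by_cases ha : a ∈ B g μ
      · simp [ha]
      · simp only [ha, not_false_eq_true, if_true, true_and]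
        refine Finset.sum_congr rfl fun b _ => ?_
        by_cases hb : b ∈ B g μ
        · simp [hb]
        · simp [hb]
    have h4 : ∑ a, (if Rg g μ a a ∧ a ∉ B g μ ∧ a ∉ B g μ then (1 : ℤ) else 0) =
        ll (Rg g μ) (univ \ B g μ) := by
      unfold ll ind
      have e1 : ∀ f : Fin m → ℤ, ∑ a ∈ univ \ B g μ, f a = ∑ a, if a ∉ B g μ then f a else 0 := by
        intro f
        rw [← Finset.sum_filter]
        congr 1
        ext a
        simp
      rw [e1]
      refine Finset.sum_congr rfl fun a _ => ?_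
      by_cases ha : a ∈ B g μ
      · simp [ha]
      · simp [ha]
    rw [h3, h4] at h2
    -- the weights
    have h5 : ((∑ x ∈ A, (if x.1.1 = x.1.2 then δ else 2 * δ) : ℕ) : ℤ) = ∑ x : K true ok,
        (if Rg g μ x.1.1 x.1.2 then (if x.1.1 = x.1.2 then (δ : ℤ) else 2 * δ) else 0) := by
      rw [hA', Finset.sum_filter]
      push_cast
      refine Finset.sum_congr rfl fun x _ => ?_
      split_ifs <;> push_cast <;> rfl
    have h6 := two_sum_true (V := Fin m)
      (fun a b => if Rg g μ a b then (if a = b then (δ : ℤ) else 2 * δ) else 0) (fun a b => by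
        have h3 : Rg g μ a b ↔ Rg g μ b a := ⟨hR g μ _ _, hR g μ _ _⟩
        have h4 : a = b ↔ b = a := eq_comm
        simp only [h3, h4])
    have h7 : ∑ a, ∑ b, (if Rg g μ a b then (if a = b then (δ : ℤ) else 2 * δ) else 0) +
        ∑ a, (if Rg g μ a a then (if a = a then (δ : ℤ) else 2 * δ) else 0) =
        2 * δ * ee (Rg g μ) univ := by
      unfold ee ind
      rw [← Finset.sum_add_distrib, Finset.mul_sum]
      refine Finset.sum_congr rfl fun a _ => ?_
      have e1 : ∀ b : Fin m, (if Rg g μ a b then (if a = b then (δ : ℤ) else 2 * δ) else 0) =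
          2 * δ * (if Rg g μ a b then (1 : ℤ) else 0) -
            (if a = b then (if Rg g μ a b then (δ : ℤ) else 0) else 0) := by
        intro b
        split_ifs <;> ring
      rw [Finset.sum_congr rfl fun b _ => e1 b, Finset.sum_sub_distrib, ← Finset.mul_sum,
        Finset.sum_ite_eq univ a, if_pos (mem_univ a)]
      simp only [if_true]
      ring
    rw [h7] at h6
    have h8 := hB3 g μ
    rw [Finset.card_univ, Fintype.card_fin, hδZ] at h8
    have h9 : ((2 * m * (A.card - Pt.card) : ℕ) : ℤ) ≤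
        ((∑ x ∈ A, (if x.1.1 = x.1.2 then δ else 2 * δ) : ℕ) : ℤ) := by
      rw [h5]
      have e2 : ((2 * m * (A.card - Pt.card) : ℕ) : ℤ) =
          m * (2 * ∑ x : K true ok,
        (if Rg g μ x.1.1 x.1.2 ∧ x.1.1 ∉ B g μ ∧ x.1.2 ∉ B g μ then (1 : ℤ) else 0)) := by
        rw [← h1]
        push_cast
        ring
      rw [e2, h2]
      linarith
    exact_mod_cast h9

end

end Pool.Agent.U913.SV
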