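import Pool.Agent.R837.FE.Comb

/-!
# Vertices of a graph with two classes of loops which can be matched and lie on many edges
-/

set_option autoImplicit false
set_option linter.unusedSectionVars false

namespace Pool.Agent.U913.SV

open Finset Pool.Agent.R837.FE

section
variable {V : Type*} [Fintype V] [LinearOrder V] (R : V → V → Prop)

open Classical in
/-- the indicator function -/
noncomputable def ind (a b : V) : ℤ := if R a b then 1 else 0

/-- the number of ordered pairs -/
noncomputable def ee (U : Finset V) : ℤ := ∑ a ∈ U, ∑ b ∈ U, ind R a b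

/-- the number of loops -/
noncomputable def ll (U : Finset V) : ℤ := ∑ a ∈ U, ind R a a

/-- the degree -/
noncomputable def dd (U : Finset V) (v : V) : ℤ := ∑ b ∈ U, ind R v b

variable {R}

theorem ind_pos {a b : V} (h : R a b) : ind R a b = 1 := if_pos h

theorem ind_neg {a b : V} (h : ¬ R a b) : ind R a b = 0 := if_neg h

theorem ind_nonneg (a b : V) : 0 ≤ ind R a b := by
  unfold ind; split_ifs <;> norm_num

theorem ind_symm (hR : ∀ a b, R a b → R b a) (a b : V) : ind R a b = ind R b a := by
  by_cases h : R a b
  · rw [ind_pos h, ind_pos (hR _ _ h)]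
  · rw [ind_neg h, ind_neg fun h' => h (hR _ _ h')]

theorem ee_eq (U : Finset V) : ee R U = ∑ a ∈ U, dd R U a := rfl

theorem dd_nonneg (U : Finset V) (v : V) : 0 ≤ dd R U v :=
  Finset.sum_nonneg fun b _ => ind_nonneg v b

theorem ee_nonneg (U : Finset V) : 0 ≤ ee R U := Finset.sum_nonneg fun a _ => dd_nonneg U a

theorem ll_nonneg (U : Finset V) : 0 ≤ ll R U := Finset.sum_nonneg fun a _ => ind_nonneg a a

theorem ll_le_ee (U : Finset V) : ll R U ≤ ee R U :=
  Finset.sum_le_sum fun a ha => Finset.single_le_sum (f := fun b => ind R a b)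
    (fun b _ => ind_nonneg a b) ha

theorem ee_erase (hR : ∀ a b, R a b → R b a) {U : Finset V} {v : V} (hv : v ∈ U) :
    ee R (U.erase v) = ee R U - 2 * dd R U v + ind R v v := by
  have h1 : ∀ a, ∑ b ∈ U.erase v, ind R a b = dd R U a - ind R a v := fun a =>
    Finset.sum_erase_eq_sub hv
  have h2 : ee R (U.erase v) = ∑ a ∈ U.erase v, (dd R U a - ind R a v) :=
    Finset.sum_congr rfl fun a _ => h1 a
  rw [h2, Finset.sum_erase_eq_sub hv, Finset.sum_sub_distrib, ← ee_eq]
  have h3 : ∑ a ∈ U, ind R a v = dd R U v := Finset.sum_congr rfl fun a _ => ind_symm hR a v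
  rw [h3]
  ring

theorem ll_erase {U : Finset V} {v : V} (hv : v ∈ U) :
    ll R (U.erase v) = ll R U - ind R v v := Finset.sum_erase_eq_sub hv

theorem dd_erase {U : Finset V} {v : V} (hv : v ∈ U) (x : V) :
    dd R (U.erase v) x = dd R U x - ind R x v := Finset.sum_erase_eq_sub hv

theorem one_le_dd {U : Finset V} {v b : V} (hb : b ∈ U) (h : R v b) : 1 ≤ dd R U v := by
  have h1 := Finset.single_le_sum (f := fun b => ind R v b) (fun b _ => ind_nonneg v b) hb
  rw [ind_pos h] at h1
  exact h1

/-- two classes of loops -/
def Two (R : V → V → Prop) : Prop :=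
  ∀ x y z, R x x → R y y → R z z → R x y ∨ R y z ∨ R x z

theorem loops (hR : ∀ a b, R a b → R b a) (h2 : Two R) {U : Finset V} {x : V} (hx : x ∈ U)
    (hxx : R x x) : ll R U ≤ dd R U x ∨ ∃ y ∈ U, R y y ∧ ¬ R x y ∧ ll R U ≤ dd R U x + dd R U y := by
  by_cases h : ∀ y ∈ U, R y y → R x y
  · left
    refine Finset.sum_le_sum fun y hy => ?_
    by_cases hyy : R y y
    · rw [ind_pos hyy, ind_pos (h y hy hyy)]
    · rw [ind_neg hyy]; exact ind_nonneg _ _
  · push Not at h
    obtain ⟨y, hy, hyy, hxy⟩ := h
    right
    refine ⟨y, hy, hyy, hxy, ?_⟩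
    unfold ll dd
    rw [← Finset.sum_add_distrib]
    refine Finset.sum_le_sum fun z _ => ?_
    by_cases hzz : R z z
    · rw [ind_pos hzz]
      rcases h2 x y z hxx hyy hzz with h | h | h
      · exact absurd h hxy
      · rw [ind_pos h]
        have := ind_nonneg (R := R) x z
        linarith
      · rw [ind_pos h]
        have := ind_nonneg (R := R) y z
        linarith
    · rw [ind_neg hzz]
      have := ind_nonneg (R := R) x z
      have := ind_nonneg (R := R) y z
      linarith

/-- a set of at most `r` vertices which can be matched and meets many edges -/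
theorem comb (hR : ∀ a b, R a b → R b a) (hR3 : ∀ a b c d, R a b → R b c → R c d → R a d)
    (h2 : Two R) : ∀ (r : ℕ) (U : Finset V), 1 ≤ r → r < U.card →
    ∃ B ⊆ U, Adm true R B ∧ B.card ≤ r ∧
      (U.card : ℤ) * (ee R (U \ B) + ll R (U \ B)) ≤ ((U.card : ℤ) + 1 - r) * ee R U := by
  intro r
  induction r using Nat.strong_induction_on with
  | _ r ih =>
  intro U hr hU
  have hn : (r : ℤ) + 1 ≤ U.card := by exact_mod_cast hU
  set n : ℤ := (U.card : ℤ) with hndef
  have hn0 : 0 < n := by
    have : (1 : ℤ) ≤ r := by exact_mod_cast hr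
    linarith
  by_cases hr1 : r = 1
  · subst hr1
    by_cases hl : ∃ x ∈ U, R x x
    · obtain ⟨x, hx, hxx⟩ := hl
      have key : ∃ x ∈ U, R x x ∧ ll R U ≤ 2 * dd R U x := by
        rcases loops hR h2 hx hxx with h | ⟨y, hy, hyy, _, h⟩
        · exact ⟨x, hx, hxx, by have := dd_nonneg (R := R) U x; linarith⟩
        · rcases le_total (dd R U x) (dd R U y) with h3 | h3
          · exact ⟨y, hy, hyy, by linarith⟩
          · exact ⟨x, hx, hxx, by linarith⟩
      obtain ⟨x, hx, hxx, h⟩ := key
      refine ⟨{x}, Finset.singleton_subset_iff.2 hx, ?_, by simp, ?_⟩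
      · have h3 := adm_loop (sym := true) (R := R) rfl (adm_empty) (Finset.notMem_empty x) hxx
        simpa using h3
      · rw [Finset.sdiff_singleton_eq_erase, ee_erase hR hx, ll_erase hx, ind_pos hxx]
        have h3 : ee R U - 2 * dd R U x + 1 + (ll R U - 1) ≤ ee R U := by linarith
        have h4 := mul_le_mul_of_nonneg_left h3 hn0.le
        push_cast
        linarith
    · push Not at hl
      refine ⟨∅, Finset.empty_subset _, adm_empty, by simp, ?_⟩
      rw [Finset.sdiff_empty]
      have h3 : ll R U = 0 := Finset.sum_eq_zero fun a ha => ind_neg (hl a ha)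
      rw [h3]
      push_cast
      linarith
  have hr2 : 2 ≤ r := by omega
  have hrZ : (2 : ℤ) ≤ r := by exact_mod_cast hr2
  by_cases h0 : ee R U = 0
  · refine ⟨∅, Finset.empty_subset _, adm_empty, by simp, ?_⟩
    rw [Finset.sdiff_empty]
    have h3 := ll_le_ee (R := R) U
    have h4 := ll_nonneg (R := R) U
    have h5 : ll R U = 0 := by linarith
    rw [h0, h5]
    simp
  have hne : U.Nonempty := by
    rw [← Finset.card_pos]; omega
  obtain ⟨u, huU, hmax⟩ := Finset.exists_max_image U (fun v => dd R U v) hne
  have hEn : ee R U ≤ n * dd R U u := by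
    rw [ee_eq, hndef]
    have h3 := Finset.sum_le_card_nsmul U (fun a => dd R U a) (dd R U u) hmax
    simpa [nsmul_eq_mul] using h3
  have hD : 1 ≤ dd R U u := by
    by_contra hcon
    have h3 : dd R U u = 0 := by
      have := dd_nonneg (R := R) U u
      omega
    rw [h3, mul_zero] at hEn
    exact h0 (le_antisymm hEn (ee_nonneg U))
  by_cases huu : R u u
  · -- a loop of maximal degree
    have hcard : ((U.erase u).card : ℤ) = n - 1 := by
      rw [Finset.card_erase_of_mem huU, Nat.cast_sub (Finset.card_pos.2 hne)]
      simp [hndef]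
    have hcard' : (U.erase u).card = U.card - 1 := Finset.card_erase_of_mem huU
    obtain ⟨B, hBU, hB1, hB2, hB3⟩ := ih (r - 1) (by omega) (U.erase u) (by omega) (by omega)
    have huB : u ∉ B := fun h => (Finset.mem_erase.1 (hBU h)).1 rfl
    refine ⟨insert u B, ?_, adm_loop rfl hB1 huB huu, ?_, ?_⟩
    · intro x hx
      rcases Finset.mem_insert.1 hx with rfl | hx
      · exact huU
      · exact (Finset.mem_erase.1 (hBU hx)).2
    · rw [Finset.card_insert_of_notMem huB]; omega
    · have hset : U \ insert u B = (U.erase u) \ B := by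
        ext x
        simp only [Finset.mem_sdiff, Finset.mem_insert, Finset.mem_erase, not_or]
        tauto
      rw [hset]
      rw [hcard, ee_erase hR huU, ind_pos huu] at hB3
      set S := ee R (U.erase u \ B) + ll R (U.erase u \ B) with hS
      have hrc : ((r - 1 : ℕ) : ℤ) = r - 1 := by
        rw [Nat.cast_sub (by omega)]; simp
      rw [hrc] at hB3
      set E := ee R U with hE
      set D := dd R U u with hDdef
      -- (n-1) S ≤ δ (E - 2 D + 1), E ≤ n D
      have hδ : 0 ≤ n + 1 - (r : ℤ) := by linarith
      have h3 : n * (E - 2 * D + 1) ≤ (n - 1) * E := by nlinarith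
      have h4 : (n - 1) * S ≤ (n + 1 - r) * (E - 2 * D + 1) := by
        have e1 : n - 1 + 1 - ((r : ℤ) - 1) = n + 1 - r := by ring
        rw [e1] at hB3
        exact hB3
      have h5 : (n - 1) * (n * S) ≤ (n - 1) * ((n + 1 - r) * E) := by
        calc (n - 1) * (n * S) = n * ((n - 1) * S) := by ring
          _ ≤ n * ((n + 1 - r) * (E - 2 * D + 1)) := mul_le_mul_of_nonneg_left h4 hn0.le
          _ = (n + 1 - r) * (n * (E - 2 * D + 1)) := by ring
          _ ≤ (n + 1 - r) * ((n - 1) * E) := mul_le_mul_of_nonneg_left h3 hδ
          _ = (n - 1) * ((n + 1 - r) * E) := by ring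
      exact le_of_mul_le_mul_left h5 (by linarith)
  · -- a pair
    have hv : ∃ v ∈ U, R u v := by
      by_contra hcon
      push Not at hcon
      have h3 : dd R U u = 0 := Finset.sum_eq_zero fun b hb => ind_neg (hcon b hb)
      omega
    obtain ⟨v, hvU, huv⟩ := hv
    have hvu : R v u := hR _ _ huv
    have hvv : ¬ R v v := fun h => huu (hR3 _ _ _ _ huv h hvu)
    have hne' : u ≠ v := fun h => huu (h ▸ huv)
    have hvU' : v ∈ U.erase u := Finset.mem_erase.2 ⟨fun h => hne' h.symm, hvU⟩
    have hdv : 1 ≤ dd R U v := one_le_dd huU hvu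
    have hee : ee R ((U.erase u).erase v) =
        ee R U - 2 * (dd R U u + dd R U v - 1) := by
      rw [ee_erase hR hvU', ee_erase hR huU, dd_erase huU, ind_neg huu, ind_neg hvv, ind_pos hvu]
      ring
    have hll : ll R ((U.erase u).erase v) = ll R U := by
      rw [ll_erase hvU', ll_erase huU, ind_neg huu, ind_neg hvv]
      ring
    by_cases hr3 : 3 ≤ r
    · have hcard : (((U.erase u).erase v).card : ℤ) = n - 2 := by
        rw [Finset.card_erase_of_mem hvU', Finset.card_erase_of_mem huU]
        rw [Nat.cast_sub (by omega), Nat.cast_sub (by omega)]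
        push_cast
        ring
      have hcard' : ((U.erase u).erase v).card = U.card - 1 - 1 := by
        rw [Finset.card_erase_of_mem hvU', Finset.card_erase_of_mem huU]
      obtain ⟨B, hBU, hB1, hB2, hB3⟩ := ih (r - 2) (by omega) ((U.erase u).erase v) (by omega)
        (by omega)
      have hvB : v ∉ B := fun h => (Finset.mem_erase.1 (hBU h)).1 rfl
      have huB : u ∉ B := fun h => (Finset.mem_erase.1 (Finset.mem_erase.1 (hBU h)).2).1 rfl
      refine ⟨insert u (insert v B), ?_, adm_edge hR hB1 huB hvB hne' huv, ?_, ?_⟩
      · intro x hx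
        rcases Finset.mem_insert.1 hx with rfl | hx
        · exact huU
        · rcases Finset.mem_insert.1 hx with rfl | hx
          · exact hvU
          · exact (Finset.mem_erase.1 (Finset.mem_erase.1 (hBU hx)).2).2
      · have h3 := Finset.card_insert_le u (insert v B)
        have h4 := Finset.card_insert_le v B
        omega
      · have hset : U \ insert u (insert v B) = ((U.erase u).erase v) \ B := by
          ext x
          simp only [Finset.mem_sdiff, Finset.mem_insert, Finset.mem_erase, not_or]
          tauto
        rw [hset]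
        rw [hcard, hee] at hB3
        set S := ee R ((U.erase u).erase v \ B) + ll R ((U.erase u).erase v \ B) with hS
        have hrc : ((r - 2 : ℕ) : ℤ) = r - 2 := by
          rw [Nat.cast_sub (by omega)]; simp
        rw [hrc] at hB3
        set E := ee R U with hE
        set D := dd R U u with hDdef
        set D' := dd R U v with hD'def
        have hδ : 0 ≤ n + 1 - (r : ℤ) := by linarith
        have h3 : n * (E - 2 * (D + D' - 1)) ≤ (n - 2) * E := by nlinarith
        have h4 : (n - 2) * S ≤ (n + 1 - r) * (E - 2 * (D + D' - 1)) := by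
          have e1 : n - 2 + 1 - ((r : ℤ) - 2) = n + 1 - r := by ring
          rw [e1] at hB3
          exact hB3
        have h5 : (n - 2) * (n * S) ≤ (n - 2) * ((n + 1 - r) * E) := by
          calc (n - 2) * (n * S) = n * ((n - 2) * S) := by ring
            _ ≤ n * ((n + 1 - r) * (E - 2 * (D + D' - 1))) := mul_le_mul_of_nonneg_left h4 hn0.le
            _ = (n + 1 - r) * (n * (E - 2 * (D + D' - 1))) := by ring
            _ ≤ (n + 1 - r) * ((n - 2) * E) := mul_le_mul_of_nonneg_left h3 hδ
            _ = (n - 2) * ((n + 1 - r) * E) := by ring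
        exact le_of_mul_le_mul_left h5 (by linarith)
    · obtain rfl : r = 2 := by omega
      by_cases hlD : ll R U ≤ dd R U u
      · refine ⟨{u, v}, ?_, ?_, Finset.card_le_two, ?_⟩
        · intro x hx
          rcases Finset.mem_insert.1 hx with rfl | hx
          · exact huU
          · rw [Finset.mem_singleton.1 hx]; exact hvU
        · have h3 := adm_edge (sym := true) hR adm_empty (Finset.notMem_empty u)
            (Finset.notMem_empty v) hne' huv
          simpa using h3
        · have hset : U \ {u, v} = (U.erase u).erase v := by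
            ext x
            simp only [Finset.mem_sdiff, Finset.mem_insert, Finset.mem_singleton,
              Finset.mem_erase, not_or]
            tauto
          rw [hset, hee, hll]
          push_cast
          nlinarith
      · push Not at hlD
        have hex : ∃ x ∈ U, R x x := by
          by_contra hcon
          push Not at hcon
          have h3 : ll R U = 0 := Finset.sum_eq_zero fun a ha => ind_neg (hcon a ha)
          omega
        obtain ⟨x, hx, hxx⟩ := hex
        rcases loops hR h2 hx hxx with h | ⟨y, hy, hyy, hxy, h⟩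
        · refine ⟨{x}, Finset.singleton_subset_iff.2 hx, ?_, by simp, ?_⟩
          · have h3 := adm_loop (sym := true) (R := R) rfl (adm_empty) (Finset.notMem_empty x) hxx
            simpa using h3
          · rw [Finset.sdiff_singleton_eq_erase, ee_erase hR hx, ll_erase hx, ind_pos hxx]
            push_cast
            nlinarith
        · have hyx : ¬ R y x := fun h3 => hxy (hR _ _ h3)
          have hxney : x ≠ y := fun h3 => hxy (h3 ▸ hxx)
          have hy' : y ∈ U.erase x := Finset.mem_erase.2 ⟨fun h3 => hxney h3.symm, hy⟩
          refine ⟨{x, y}, ?_, ?_, Finset.card_le_two, ?_⟩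
          · intro z hz
            rcases Finset.mem_insert.1 hz with rfl | hz
            · exact hx
            · rw [Finset.mem_singleton.1 hz]; exact hy
          · have h3 := adm_loop (sym := true) (R := R) rfl (adm_empty) (Finset.notMem_empty y) hyy
            have h4 := adm_loop (sym := true) (R := R) rfl h3 (a := x) (by simp [hxney]) hxx
            simpa using h4
          · have hset : U \ {x, y} = (U.erase x).erase y := by
              ext z
              simp only [Finset.mem_sdiff, Finset.mem_insert, Finset.mem_singleton,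
                Finset.mem_erase, not_or]
              tauto
            rw [hset, ee_erase hR hy', ee_erase hR hx, dd_erase hx, ll_erase hy', ll_erase hx,
              ind_pos hxx, ind_pos hyy, ind_neg hyx]
            push_cast
            nlinarith

end

end Pool.Agent.U913.SV
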