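import Pool.Agent.R837.FQ.Total

/-!
# The format of the Segre-Veronese varieties: coordinates, points, counting
-/

set_option autoImplicit false
set_option linter.unusedSectionVars false

namespace Pool.Agent.U913.SV

open Finset MvPolynomial Pool.Agent.TH144.NV Pool.Agent.R837.FQ

variable {r : ℕ}

/-- the coordinates: families of multisets `u j` of size `d j` in `Fin (n j)` -/
abbrev Idx (n d : Fin r → ℕ) : Type := (j : Fin r) → Sym (Fin (n j)) (d j)

variable {n d : Fin r → ℕ}

/-- the pure coordinate -/
def pure (i : (j : Fin r) → Fin (n j)) : Idx n d := fun j => Sym.replicate (d j) (i j)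

theorem pure_coe (i : (j : Fin r) → Fin (n j)) (j : Fin r) :
    ((pure (d := d) i j : Sym (Fin (n j)) (d j)) : Multiset (Fin (n j))) =
      Multiset.replicate (d j) (i j) := rfl

theorem pure_injective (hd : ∀ j, 0 < d j) : Function.Injective (pure (n := n) (d := d)) := by
  intro i i' h
  funext j
  have h1 : Multiset.replicate (d j) (i j) = Multiset.replicate (d j) (i' j) := by
    have h2 := congrFun h j
    have h3 := congrArg (fun z : Sym (Fin (n j)) (d j) => (z : Multiset (Fin (n j)))) h2
    exact h3
  exact (Multiset.replicate_right_injective (hd j).ne') h1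

/-- value of a multiplicative function at a coordinate -/
def ev {A : Type*} [CommMonoid A] (y : (j : Fin r) → Fin (n j) → A) (u : Idx n d) : A :=
  ∏ j, ((u j : Multiset (Fin (n j))).map (y j)).prod

theorem ev_pure {A : Type*} [CommMonoid A] (y : (j : Fin r) → Fin (n j) → A)
    (i : (j : Fin r) → Fin (n j)) : ev y (pure (d := d) i) = ∏ j, y j (i j) ^ d j := by
  unfold ev
  refine Finset.prod_congr rfl fun j _ => ?_
  rw [pure_coe, Multiset.map_replicate, Multiset.prod_replicate]

theorem ev_mul {A : Type*} [CommMonoid A] (y : (j : Fin r) → Fin (n j) → A) (u v u' v' : Idx n d)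
    (h : ∀ j, (u j : Multiset (Fin (n j))) + v j = u' j + v' j) :
    ev y u * ev y v = ev y u' * ev y v' := by
  unfold ev
  rw [← Finset.prod_mul_distrib, ← Finset.prod_mul_distrib]
  refine Finset.prod_congr rfl fun j _ => ?_
  rw [← Multiset.prod_add, ← Multiset.prod_add, ← Multiset.map_add, ← Multiset.map_add, h j]

/-- the equations of the Segre-Veronese variety -/
noncomputable def svEq (k : Type) [Field k] (n d : Fin r → ℕ)
    (x : {x : Idx n d × Idx n d × Idx n d × Idx n d //
      ∀ j, (x.1 j : Multiset (Fin (n j))) + x.2.1 j = x.2.2.1 j + x.2.2.2 j}) :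
    MvPolynomial (Idx n d) k :=
  X x.1.1 * X x.1.2.1 - X x.1.2.2.1 * X x.1.2.2.2

/-- the coordinates next to the pure coordinate `i` in the direction `j0` -/
def nb (j0 : Fin r) (hd : 0 < d j0) (i : (j : Fin r) → Fin (n j)) (x : Fin (n j0)) : Idx n d :=
  Function.update (pure i) j0
    (Sym.mk (x ::ₘ Multiset.replicate (d j0 - 1) (i j0)) (by
      rw [Multiset.card_cons, Multiset.card_replicate]; omega))

theorem nb_self (j0 : Fin r) (hd : 0 < d j0) (i : (j : Fin r) → Fin (n j)) (x : Fin (n j0)) :
    ((nb (d := d) j0 hd i x j0 : Sym (Fin (n j0)) (d j0)) : Multiset (Fin (n j0))) =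
      x ::ₘ Multiset.replicate (d j0 - 1) (i j0) := by
  unfold nb
  rw [Function.update_self]
  rfl

theorem nb_of_ne (j0 : Fin r) (hd : 0 < d j0) (i : (j : Fin r) → Fin (n j)) (x : Fin (n j0))
    (j : Fin r) (hj : j ≠ j0) : nb (d := d) j0 hd i x j = pure i j := by
  unfold nb
  rw [Function.update_of_ne hj]

theorem nb_injective (j0 : Fin r) (hd : 0 < d j0) (i : (j : Fin r) → Fin (n j)) :
    Function.Injective (nb (d := d) j0 hd i) := by
  intro x x' h
  have h1 := congrArg (fun z : Idx n d => ((z j0 : Sym (Fin (n j0)) (d j0)) :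
    Multiset (Fin (n j0)))) h
  simp only [nb_self] at h1
  exact (Multiset.cons_inj_left _).1 h1

theorem nb_base (j0 : Fin r) (hd : 0 < d j0) (i : (j : Fin r) → Fin (n j)) :
    nb (d := d) j0 hd i (i j0) = pure i := by
  funext j
  by_cases hj : j = j0
  · subst hj
    apply Sym.coe_injective
    rw [nb_self, pure_coe, ← Multiset.replicate_succ]
    congr 1
    omega
  · exact nb_of_ne j0 hd i _ j hj

/-- the coordinates on a linear space of the Segre-Veronese variety are free -/
theorem sv_ext (k : Type) [Field k] (live : Idx n d → Prop) {A : Type*}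
    (lam : (j : Fin r) → Fin (n j) → A) (j0 : Fin r) (hd : 0 < d j0)
    (i : (j : Fin r) → Fin (n j))
    (hlive : ∀ u : Idx n d, (∀ j, ∀ x ∈ (u j : Multiset (Fin (n j))), lam j x = lam j (i j)) → live u)
    (P : Finset (Idx n d))
    (hP : ∀ u, u ∈ P ↔ ∃ x, lam j0 x = lam j0 (i j0) ∧ nb j0 hd i x = u) :
    Ext k (svEq k n d) live P := by
  classical
  intro L _ _ u hu
  have hbase : pure i ∈ P := (hP _).2 ⟨i j0, rfl, nb_base j0 hd i⟩
  set s : L := u (pure i) with hs
  have hs0 : s ≠ 0 := hu.ne_zero ⟨pure i, hbase⟩
  let y : (j : Fin r) → Fin (n j) → L :=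
    Function.update (fun j x => if x = i j then 1 else 0) j0
      (fun x => if lam j0 x = lam j0 (i j0) then u (nb j0 hd i x) / s else 0)
  have hy0 : ∀ x, y j0 x = if lam j0 x = lam j0 (i j0) then u (nb j0 hd i x) / s else 0 := by
    intro x
    exact congrFun (Function.update_self (β := fun j => Fin (n j) → L) j0 _ _) x
  have hy1 : ∀ j, j ≠ j0 → ∀ x, y j x = if x = i j then 1 else 0 := by
    intro j hj x
    exact congrFun (Function.update_of_ne (β := fun j => Fin (n j) → L) hj _ _) x
  have hyb : y j0 (i j0) = 1 := by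
    rw [hy0, if_pos rfl, nb_base]
    exact div_self hs0
  refine ⟨fun v => s * ev y v, ?_, ?_, ?_⟩
  · intro v hv
    obtain ⟨x, hx, rfl⟩ := (hP v).1 hv
    have h1 : ev y (nb (d := d) j0 hd i x) = y j0 x := by
      unfold ev
      rw [Finset.prod_eq_single j0]
      · rw [nb_self, Multiset.map_cons, Multiset.prod_cons, Multiset.map_replicate,
          Multiset.prod_replicate, hyb, one_pow, mul_one]
      · intro j _ hj
        rw [nb_of_ne j0 hd i x j hj, pure_coe, Multiset.map_replicate, Multiset.prod_replicate,
          hy1 j hj, if_pos rfl, one_pow]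
      · intro h
        exact absurd (mem_univ _) h
    show s * ev y (nb (d := d) j0 hd i x) = u (nb j0 hd i x)
    rw [h1, hy0, if_pos hx, mul_div_cancel₀ _ hs0]
  · intro v hv
    have h1 : ev y v = 0 := by
      by_contra hne
      apply hv
      apply hlive
      intro j x hx
      have h2 : y j x ≠ 0 := by
        intro h3
        apply hne
        unfold ev
        apply Finset.prod_eq_zero (mem_univ j)
        apply Multiset.prod_eq_zero
        rw [Multiset.mem_map]
        exact ⟨x, hx, h3⟩
      by_cases hj : j = j0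
      · subst hj
        rw [hy0] at h2
        by_contra h4
        rw [if_neg h4] at h2
        exact h2 rfl
      · rw [hy1 j hj] at h2
        have h4 : x = i j := by
          by_contra h4
          rw [if_neg h4] at h2
          exact h2 rfl
        rw [h4]
    show s * ev y v = 0
    rw [h1, mul_zero]
  · rintro ⟨⟨a, b, a', b'⟩, h⟩
    simp only [svEq, map_sub, map_mul, aeval_X]
    have h1 := ev_mul y a b a' b' h
    linear_combination s * s * h1

/-- moving one coordinate -/
theorem sum_update {B : Type*} [AddCommMonoid B] (j0 : Fin r)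
    (F : ((j : Fin r) → Fin (n j)) → B) :
    ∑ i : (j : Fin r) → Fin (n j), ∑ x : Fin (n j0), F (Function.update i j0 x) =
      n j0 • ∑ i, F i := by
  classical
  rw [← Fintype.sum_prod_type' (f := fun i x => F (Function.update i j0 x))]
  let τ : (((j : Fin r) → Fin (n j)) × Fin (n j0)) ≃ (((j : Fin r) → Fin (n j)) × Fin (n j0)) :=
    { toFun := fun p => (Function.update p.1 j0 p.2, p.1 j0)
      invFun := fun p => (Function.update p.1 j0 p.2, p.1 j0)
      left_inv := by
        rintro ⟨i, x⟩
        simp
      right_inv := by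
        rintro ⟨i, x⟩
        simp }
  have h1 : ∑ p : ((j : Fin r) → Fin (n j)) × Fin (n j0), F (Function.update p.1 j0 p.2) =
      ∑ p : ((j : Fin r) → Fin (n j)) × Fin (n j0), F p.1 :=
    τ.sum_comp (fun p => F p.1)
  rw [h1, Fintype.sum_prod_type]
  simp only [Finset.sum_const, Finset.card_univ, Fintype.card_fin]
  rw [Finset.smul_sum]

open Classical in
/-- there is a long line of live coordinates next to a live pure coordinate -/
theorem exists_nb {k : Type} [Field k] (j0 : Fin r) (hd : 0 < d j0) (c : ℕ)
    (hn : n j0 = c * d j0)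
    (lam : (j : Fin r) → Fin (n j) → kˣ) (Ω : kˣ) (S : Finset ((j : Fin r) → Fin (n j)))
    (hS : ∀ i, i ∈ S ↔ Ω * ∏ j, lam j (i j) ^ d j = 1) (hne : S.Nonempty) :
    ∃ i ∈ S, c * S.card ≤ (∏ j, n j) *
      (univ.filter fun x => lam j0 x = lam j0 (i j0)).card := by
  classical
  obtain ⟨i0, hi0, hmax⟩ := Finset.exists_max_image S
    (fun i => (univ.filter fun x => lam j0 x = lam j0 (i j0)).card) hne
  refine ⟨i0, hi0, ?_⟩
  set Nm := (univ.filter fun x => lam j0 x = lam j0 (i0 j0)).card with hNm
  -- the number of elements of `S` on a line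
  have hline : ∀ i : (j : Fin r) → Fin (n j),
      (univ.filter fun x : Fin (n j0) => Function.update i j0 x ∈ S).card ≤ Nm * d j0 := by
    intro i
    set T := univ.filter fun x : Fin (n j0) => Function.update i j0 x ∈ S with hT
    have h1 : T.card ≤ Nm * (T.image (lam j0)).card := by
      apply Finset.card_le_mul_card_image
      intro y hy
      obtain ⟨x, hx, rfl⟩ := Finset.mem_image.1 hy
      have hxS : Function.update i j0 x ∈ S := (Finset.mem_filter.1 hx).2
      refine le_trans (Finset.card_le_card ?_) (hmax _ hxS)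
      intro x' hx'
      rw [Finset.mem_filter] at hx' ⊢
      refine ⟨mem_univ _, ?_⟩
      rw [hx'.2, Function.update_self]
    refine le_trans h1 (Nat.mul_le_mul_left _ ?_)
    -- at most `d` values
    set C0 : kˣ := (Ω * ∏ j ∈ univ.erase j0, lam j (i j) ^ d j)⁻¹ with hC0
    have h2 : ∀ y ∈ T.image (lam j0), y ^ d j0 = C0 := by
      intro y hy
      obtain ⟨x, hx, rfl⟩ := Finset.mem_image.1 hy
      have hxS : Function.update i j0 x ∈ S := (Finset.mem_filter.1 hx).2
      have h3 := (hS _).1 hxS
      rw [← Finset.mul_prod_erase univ _ (mem_univ j0), Function.update_self] at h3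
      have h4 : ∏ j ∈ univ.erase j0, lam j (Function.update i j0 x j) ^ d j =
          ∏ j ∈ univ.erase j0, lam j (i j) ^ d j := by
        refine Finset.prod_congr rfl fun j hj => ?_
        rw [Function.update_of_ne (Finset.ne_of_mem_erase hj)]
      rw [h4] at h3
      rw [hC0, eq_inv_iff_mul_eq_one, ← h3]
      exact mul_left_comm _ _ _
    have h3 : ((T.image (lam j0)).image (fun y : kˣ => (y : k))).card ≤ d j0 := by
      have h4 : (T.image (lam j0)).image (fun y : kˣ => (y : k)) ⊆
          (Polynomial.nthRoots (d j0) (C0 : k)).toFinset := by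
        intro z hz
        obtain ⟨y, hy, rfl⟩ := Finset.mem_image.1 hz
        rw [Multiset.mem_toFinset, Polynomial.mem_nthRoots hd, ← Units.val_pow_eq_pow_val,
          h2 y hy]
      exact (Finset.card_le_card h4).trans ((Multiset.toFinset_card_le _).trans
        (Polynomial.card_nthRoots _ _))
    rwa [Finset.card_image_of_injective _ Units.val_injective] at h3
  have hsum := sum_update (n := n) j0 (fun i => if i ∈ S then (1 : ℕ) else 0)
  have h1 : ∀ i : (j : Fin r) → Fin (n j),
      ∑ x : Fin (n j0), (if Function.update i j0 x ∈ S then (1 : ℕ) else 0) ≤ Nm * d j0 := by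
    intro i
    rw [← Finset.card_filter]
    exact hline i
  have h2 : n j0 * S.card ≤ (∏ j, n j) * (Nm * d j0) := by
    have h3 : (∑ i, if i ∈ S then (1 : ℕ) else 0) = S.card := by
      rw [← Finset.card_filter]
      simp
    rw [h3, smul_eq_mul] at hsum
    rw [← hsum]
    refine le_trans (Finset.sum_le_sum fun i _ => h1 i) ?_
    rw [Finset.sum_const, Finset.card_univ, Fintype.card_pi, smul_eq_mul]
    simp
  rw [hn] at h2
  have h3 : d j0 * (c * S.card) ≤ d j0 * ((∏ j, n j) * Nm) := by
    calc d j0 * (c * S.card) = c * d j0 * S.card := by ring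
      _ ≤ (∏ j, n j) * (Nm * d j0) := h2
      _ = d j0 * ((∏ j, n j) * Nm) := by ring
  exact Nat.le_of_mul_le_mul_left h3 hd

end Pool.Agent.U913.SV
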